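import Pool.Agent.W586.CS.Stm

/-! Project CS (helper586), part FIN: assembly for the frozen statement. -/

set_option autoImplicit false

namespace Pool.Agent.W639.CS

open Pool.Agent.W586.CS

theorem main (h1 : S_CPX) (h2 : S_TR) :
    ∀ (n d m : ℕ), 0 < n → 0 < m →
      ∀ (A : Fin d → Matrix (Fin n) (Fin n) ℂ) (γ : Fin d → Matrix (Fin m) (Fin m) ℂ),
        (∀ j, (A j).IsHermitian) →
        (∀ j, (γ j).IsHermitian) →
        (∀ j, γ j * γ j = 1) →
        (∀ j k, j ≠ k → γ j * γ k = -(γ k * γ j)) →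
        ∃ x : Fin d → ℝ,
          (∑ j : Fin d,
            Matrix.kronecker (A j - ((x j : ℂ)) • (1 : Matrix (Fin n) (Fin n) ℂ)) (γ j)).det = 0 := by
  intro n d m hn hm A γ hA _ hg1 hg2
  obtain ⟨x, ζ, hζ, h⟩ := h1 n d hn A hA
  exact ⟨x, h2 n d m hm A γ hg1 hg2 x ζ hζ h⟩

end Pool.Agent.W639.CS
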